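import Pool.Agent.Helper38.ZS.Norm
import Pool.Agent.Helper38.ZS2.Stmts
import Pool.Agent.Helper55.ZS.Piece

/-!
# Zonotope signing with cheap coordinates, module 4: a bad vector has a bad piece
-/

namespace Pool.Agent.Helper37.ZS2

open Finset Pool.Agent.Helper38.ZS Pool.Agent.Helper38.ZS2
open Pool.Agent.Helper55.ZS (sum_pieces sum_pieces_inter sum_pieces_sdiff card_eq_sum DD_large)
open scoped Classical

noncomputable section

/-- the last part of the proof: any vector with good profiles has a bad piece -/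
theorem core {ι : Type} [Fintype ι] (P : ι → ι → ℝ) (V : Finset ι) (g ξ : ι → ℝ)
    (β γ κ L m0 c1 c2 c3 e0 : ℝ) (hPART : ST_PART) (hβ : 0 < β) (hγ : 0 < γ) (hγ1 : γ ≤ 1)
    (hκ : 0 < κ) (hL0 : 0 < L) (hc1p : 0 < c1) (hc2p : 0 < c2) (hc3p : 0 < c3) (he0p : 0 < e0)
    (hP : IsPr P) (hξ : ∀ i ∈ V, |ξ i| ≤ 1) (hm0 : 0 < m0) (hm0e : m0 = ∑ i ∈ V, |TT (g i)|)
    (hgain : 2 / 5 * β * m0 ≤ ∑ i ∈ V, ξ i * TT (g i))
    (hnuG : nu g (univ.filter (fun i => γ ≤ |g i|)) ≤ c1 * m0)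
    (hnuM : nu g (univ.filter (fun i => γ ≤ |g i|) \ V) ≤ c2 * m0 / L)
    (hDG : DD P g (univ.filter (fun i => γ ≤ |g i|)) ≤ e0 / 2 * m0)
    (hκ2 : 40 * κ / γ * c1 ≤ e0 / 2)
    (hcard : (#((univ.filter (fun i => γ ≤ |g i|) ∩ V).filter (fun i => 1 / 2 ≤ |g i|)) : ℝ)
      ≤ c3 * m0) :
    ∃ (Z : Finset ι) (m : ℝ), m = ∑ i ∈ Z ∩ V, |TT (g i)| ∧ 0 < m ∧
        β / 4 * m < ∑ i ∈ Z ∩ V, ξ i * TT (g i) ∧ (∀ i ∈ Z, γ ≤ |g i|) ∧ Link P κ Z g ∧
        nu g Z ≤ 32 / β * c1 * m ∧ nu g (Z \ V) ≤ 32 / β * c2 / L * m ∧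
        DD P g Z ≤ 32 / β * e0 * m ∧
        (#((Z ∩ V).filter (fun i => 1 / 2 ≤ |g i|)) : ℝ) ≤ 32 / β * c3 * m := by
  set G : Finset ι := univ.filter (fun i => γ ≤ |g i|) with hGdef
  obtain ⟨Q, hQ1, hQ2, hQ3, hQ4, hQ5⟩ := hPART ι P g G γ κ hP hγ hγ1 hκ
    (fun i hi => (Finset.mem_filter.mp hi).2)
  have hTT0 : ∀ i, i ∉ G → TT (g i) = 0 := by
    intro i hi
    have h1 : |g i| < γ := by
      by_contra hcon
      exact hi (Finset.mem_filter.mpr ⟨Finset.mem_univ _, not_lt.mp hcon⟩)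
    have h2 : |g i| ≤ 1 := by linarith
    have := abs_le.1 h2
    unfold TT cl
    rw [min_eq_left (by linarith), max_eq_right (by linarith), min_eq_left (by linarith),
      max_eq_right (by linarith)]
    ring
  have hGVsum : ∀ φ : ι → ℝ, (∀ i, i ∉ G → φ i = 0) → ∑ i ∈ G ∩ V, φ i = ∑ i ∈ V, φ i := by
    intro φ hφ
    apply Finset.sum_subset Finset.inter_subset_right
    intro i hi hi2
    apply hφ
    intro hcon
    exact hi2 (Finset.mem_inter.mpr ⟨hcon, hi⟩)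
  set mm : Finset ι → ℝ := fun Z => ∑ i ∈ Z ∩ V, |TT (g i)| with hmm
  set bb : Finset ι → ℝ := fun Z => ∑ i ∈ Z ∩ V, ξ i * TT (g i) with hbb
  set kk : Finset ι → ℝ := fun Z => (#((Z ∩ V).filter (fun i => 1 / 2 ≤ |g i|)) : ℝ) with hkk
  have smm : ∑ Z ∈ Q, mm Z = m0 := by
    rw [hmm]
    rw [sum_pieces_inter V hQ2 hQ3 (fun i => |TT (g i)|),
      hGVsum (fun i => |TT (g i)|) (fun i hi => by rw [hTT0 i hi, abs_zero]), hm0e]
  have sbb : ∑ Z ∈ Q, bb Z = ∑ i ∈ V, ξ i * TT (g i) := by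
    rw [hbb]
    rw [sum_pieces_inter V hQ2 hQ3 (fun i => ξ i * TT (g i)),
      hGVsum (fun i => ξ i * TT (g i)) (fun i hi => by rw [hTT0 i hi, mul_zero])]
  have skk : ∑ Z ∈ Q, kk Z ≤ c3 * m0 := by
    have h1 : ∑ Z ∈ Q, kk Z = (#((G ∩ V).filter (fun i => 1 / 2 ≤ |g i|)) : ℝ) := by
      rw [hkk]
      simp only [card_eq_sum]
      exact sum_pieces_inter V hQ2 hQ3 _
    rw [h1]
    exact hcard
  have snu : ∑ Z ∈ Q, nu g Z ≤ c1 * m0 := by
    have h1 : ∑ Z ∈ Q, nu g Z = nu g G := by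
      unfold nu
      exact sum_pieces hQ2 hQ3 _
    rw [h1]
    exact hnuG
  have snv : ∑ Z ∈ Q, nu g (Z \ V) ≤ c2 * m0 / L := by
    have h1 : ∑ Z ∈ Q, nu g (Z \ V) = nu g (G \ V) := by
      unfold nu
      exact sum_pieces_sdiff V hQ2 hQ3 _
    rw [h1]
    exact hnuM
  have sDD : ∑ Z ∈ Q, DD P g Z ≤ e0 * m0 := by
    have h1 : 40 * κ / γ * nu g G ≤ 40 * κ / γ * (c1 * m0) :=
      mul_le_mul_of_nonneg_left hnuG (by positivity)
    have h2 : 40 * κ / γ * (c1 * m0) ≤ e0 / 2 * m0 := by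
      rw [← mul_assoc]
      exact mul_le_mul_of_nonneg_right hκ2 hm0.le
    linarith
  -- averaging
  have havg : 0 < ∑ Z ∈ Q, (bb Z - β / 4 * mm Z - β / 32 * (DD P g Z / e0 + nu g Z / c1
      + L * nu g (Z \ V) / c2 + kk Z / c3)) := by
    have h1 : ∑ Z ∈ Q, (bb Z - β / 4 * mm Z - β / 32 * (DD P g Z / e0 + nu g Z / c1
        + L * nu g (Z \ V) / c2 + kk Z / c3))
        = ∑ Z ∈ Q, bb Z - β / 4 * ∑ Z ∈ Q, mm Z - β / 32 * ((∑ Z ∈ Q, DD P g Z) / e0
          + (∑ Z ∈ Q, nu g Z) / c1 + L * (∑ Z ∈ Q, nu g (Z \ V)) / c2 + (∑ Z ∈ Q, kk Z) / c3) := by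
      simp only [Finset.sum_sub_distrib, ← Finset.mul_sum, Finset.sum_add_distrib,
        ← Finset.sum_div]
    rw [h1, smm, sbb]
    have h2 : (∑ Z ∈ Q, DD P g Z) / e0 ≤ m0 := by
      rw [div_le_iff₀ he0p]
      linarith
    have h3 : (∑ Z ∈ Q, nu g Z) / c1 ≤ m0 := by
      rw [div_le_iff₀ hc1p]
      linarith
    have h4 : L * (∑ Z ∈ Q, nu g (Z \ V)) / c2 ≤ m0 := by
      rw [div_le_iff₀ hc2p]
      have h5 := mul_le_mul_of_nonneg_left snv hL0.le
      have h6 : L * (c2 * m0 / L) = m0 * c2 := by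
        field_simp
      linarith
    have h5 : (∑ Z ∈ Q, kk Z) / c3 ≤ m0 := by
      rw [div_le_iff₀ hc3p]
      linarith
    have h6 : β / 32 * ((∑ Z ∈ Q, DD P g Z) / e0
          + (∑ Z ∈ Q, nu g Z) / c1 + L * (∑ Z ∈ Q, nu g (Z \ V)) / c2 + (∑ Z ∈ Q, kk Z) / c3)
          ≤ β / 32 * (4 * m0) := mul_le_mul_of_nonneg_left (by linarith) (by positivity)
    have h7 : 0 < β * m0 := by positivity
    linarith
  obtain ⟨Z, hZ, hZpos⟩ : ∃ Z ∈ Q, 0 < bb Z - β / 4 * mm Z - β / 32 * (DD P g Z / e0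
      + nu g Z / c1 + L * nu g (Z \ V) / c2 + kk Z / c3) := by
    by_contra hcon
    push Not at hcon
    have := Finset.sum_nonpos hcon
    linarith
  have hZG : Z ⊆ G := by
    rw [← hQ3]
    exact Finset.subset_biUnion_of_mem id hZ
  have hDD0 : 0 ≤ DD P g Z / e0 := div_nonneg (DD_nonneg P g Z) he0p.le
  have hnu0 : 0 ≤ nu g Z / c1 := div_nonneg (nu_nonneg g Z) hc1p.le
  have hnv0 : 0 ≤ L * nu g (Z \ V) / c2 :=
    div_nonneg (mul_nonneg hL0.le (nu_nonneg g _)) hc2p.le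
  have hkk0 : 0 ≤ kk Z / c3 := div_nonneg (Nat.cast_nonneg _) hc3p.le
  have hmm0 : 0 ≤ mm Z := Finset.sum_nonneg (fun _ _ => abs_nonneg _)
  have hbm : bb Z ≤ mm Z := by
    apply Finset.sum_le_sum
    intro i hi
    have h1 := hξ i (Finset.mem_inter.mp hi).2
    calc ξ i * TT (g i) ≤ |ξ i * TT (g i)| := le_abs_self _
      _ = |ξ i| * |TT (g i)| := abs_mul _ _
      _ ≤ 1 * |TT (g i)| := mul_le_mul_of_nonneg_right h1 (abs_nonneg _)
      _ = |TT (g i)| := one_mul _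
  have hβ32 : 0 < β / 32 := by positivity
  have hsum0 : 0 ≤ β / 32 * (DD P g Z / e0 + nu g Z / c1 + L * nu g (Z \ V) / c2 + kk Z / c3) := by
    positivity
  have hβm : 0 ≤ β / 4 * mm Z := by positivity
  have hmpos : 0 < mm Z := by linarith
  -- each quantity
  have hone : ∀ x : ℝ, x ≤ DD P g Z / e0 + nu g Z / c1 + L * nu g (Z \ V) / c2 + kk Z / c3 →
      x ≤ 32 / β * mm Z := by
    intro x hx
    have h1 : β / 32 * x ≤ mm Z := by
      have := mul_le_mul_of_nonneg_left hx hβ32.le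
      linarith
    have h2 : x = 32 / β * (β / 32 * x) := by
      field_simp
    rw [h2]
    exact mul_le_mul_of_nonneg_left h1 (by positivity)
  have q1 := hone (DD P g Z / e0) (by linarith)
  have q2 := hone (nu g Z / c1) (by linarith)
  have q3 := hone (L * nu g (Z \ V) / c2) (by linarith)
  have q4 := hone (kk Z / c3) (by linarith)
  rw [div_le_iff₀ he0p] at q1
  rw [div_le_iff₀ hc1p] at q2
  rw [div_le_iff₀ hc2p] at q3
  rw [div_le_iff₀ hc3p] at q4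
  refine ⟨Z, mm Z, rfl, hmpos, ?_, ?_, hQ4 Z hZ, ?_, ?_, ?_, ?_⟩
  · linarith
  · intro i hi
    exact (Finset.mem_filter.mp (hZG hi)).2
  · refine q2.trans (le_of_eq ?_)
    ring
  · have h1 : nu g (Z \ V) ≤ 32 / β * mm Z * c2 / L := by
      rw [le_div_iff₀ hL0]
      linarith
    refine h1.trans (le_of_eq ?_)
    ring
  · refine q1.trans (le_of_eq ?_)
    ring
  · refine q4.trans (le_of_eq ?_)
    ring

/-! ## pointwise inequalities -/

theorem rp_big (d γ : ℝ) (hγ : 0 < γ) (hγ1 : γ ≤ 1) (h : γ / 2 ≤ |d|) :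
    |d| ^ (19 / 20 : ℝ) ≤ 4 / γ ^ 2 * d ^ 2 := by
  set t : ℝ := |d| / (γ / 2) with ht
  have hg2 : 0 < γ / 2 := by positivity
  have ht1 : 1 ≤ t := by
    rw [ht, le_div_iff₀ hg2]
    linarith
  have hd : |d| = t * (γ / 2) := by
    rw [ht]
    field_simp
  have h1 : |d| ^ (19 / 20 : ℝ) = t ^ (19 / 20 : ℝ) * (γ / 2) ^ (19 / 20 : ℝ) := by
    rw [hd, Real.mul_rpow (by linarith) hg2.le]
  have h2 : (γ / 2) ^ (19 / 20 : ℝ) ≤ 1 := Real.rpow_le_one hg2.le (by linarith) (by norm_num)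
  have h3 : t ^ (19 / 20 : ℝ) ≤ t ^ (2 : ℝ) := Real.rpow_le_rpow_of_exponent_le ht1 (by norm_num)
  have h4 : 4 / γ ^ 2 * d ^ 2 = t ^ (2 : ℝ) := by
    rw [Real.rpow_two, ← sq_abs d, hd]
    field_simp
    norm_num
  rw [h1, h4]
  calc t ^ (19 / 20 : ℝ) * (γ / 2) ^ (19 / 20 : ℝ) ≤ t ^ (19 / 20 : ℝ) * 1 :=
        mul_le_mul_of_nonneg_left h2 (by positivity)
    _ ≤ t ^ (2 : ℝ) := by rw [mul_one]; exact h3

theorem nu_pt (x y γ : ℝ) (hγ : 0 < γ) (hγ1 : γ ≤ 1) (h : γ ≤ |y|) :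
    |y| ^ (19 / 20 : ℝ) ≤ 2 * (if γ / 2 ≤ |x| then |x| ^ (19 / 20 : ℝ) else 0)
      + 8 / γ ^ 2 * (y - x) ^ 2 := by
  have h0 : |y| ≤ |x| + |y - x| := by
    calc |y| = |x + (y - x)| := by ring_nf
      _ ≤ _ := abs_add_le _ _
  have h1 : |y| ^ (19 / 20 : ℝ) ≤ |x| ^ (19 / 20 : ℝ) + |y - x| ^ (19 / 20 : ℝ) :=
    (Real.rpow_le_rpow (abs_nonneg _) h0 (by norm_num)).trans
      (Real.rpow_add_le_add_rpow (abs_nonneg _) (abs_nonneg _) (by norm_num) (by norm_num))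
  have h8 : 8 / γ ^ 2 * (y - x) ^ 2 = 4 / γ ^ 2 * (y - x) ^ 2 + 4 / γ ^ 2 * (y - x) ^ 2 := by ring
  have hsq : 0 ≤ 4 / γ ^ 2 * (y - x) ^ 2 := by positivity
  by_cases hx : γ / 2 ≤ |x|
  · rw [if_pos hx]
    by_cases hd : |y - x| ≤ |x|
    · have := Real.rpow_le_rpow (abs_nonneg _) hd (by norm_num : (0 : ℝ) ≤ 19 / 20)
      linarith
    · have h2 := rp_big (y - x) γ hγ hγ1 (by linarith [not_le.mp hd])
      have h3 : 0 ≤ |x| ^ (19 / 20 : ℝ) := by positivity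
      linarith
  · rw [if_neg hx]
    push Not at hx
    have hd : γ / 2 ≤ |y - x| := by linarith
    have h2 := rp_big (y - x) γ hγ hγ1 hd
    have h3 := Real.rpow_le_rpow (abs_nonneg x) (by linarith : |x| ≤ |y - x|)
      (by norm_num : (0 : ℝ) ≤ 19 / 20)
    linarith

theorem sq_pt (x y γ : ℝ) (h : |y| < γ) :
    y ^ 2 ≤ 2 * (if |x| < 2 * γ then x ^ 2 else 0) + 2 * (y - x) ^ 2 := by
  by_cases hx : |x| < 2 * γ
  · rw [if_pos hx]
    nlinarith [sq_nonneg (x - (y - x))]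
  · rw [if_neg hx]
    push Not at hx
    have h1 : |x| ≤ |y| + |y - x| := by
      calc |x| = |y - (y - x)| := by ring_nf
        _ ≤ _ := abs_sub _ _
    have h2 : |y| ≤ |y - x| := by linarith
    have h3 : y ^ 2 ≤ (y - x) ^ 2 := by
      rw [← sq_abs y, ← sq_abs (y - x)]
      exact pow_le_pow_left₀ (abs_nonneg _) h2 2
    nlinarith [sq_nonneg (y - x)]

theorem cl_lip (c x y : ℝ) : |cl c x - cl c y| ≤ |x - y| := by
  unfold cl
  have h1 : |max (-c) (min x c) - max (-c) (min y c)| ≤ max |(-c) - (-c)| |min x c - min y c| :=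
    abs_max_sub_max_le_max _ _ _ _
  have h2 : |min x c - min y c| ≤ max |x - y| |c - c| := abs_min_sub_min_le_max _ _ _ _
  have e1 : |(-c) - (-c)| = 0 := by rw [sub_self, abs_zero]
  have e2 : |c - c| = 0 := by rw [sub_self, abs_zero]
  rw [e1] at h1
  rw [e2] at h2
  have h3 : max 0 |min x c - min y c| = |min x c - min y c| := max_eq_right (abs_nonneg _)
  have h4 : max |x - y| 0 = |x - y| := max_eq_left (abs_nonneg _)
  rw [h3] at h1
  rw [h4] at h2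
  exact h1.trans h2

theorem TT_lip (x y : ℝ) : |TT x - TT y| ≤ 2 * |x - y| := by
  unfold TT
  have h1 := cl_lip 2 x y
  have h2 := cl_lip 1 x y
  have h3 : cl 2 x - cl 1 x - (cl 2 y - cl 1 y) = (cl 2 x - cl 2 y) - (cl 1 x - cl 1 y) := by ring
  rw [h3]
  have h4 := abs_sub (cl 2 x - cl 2 y) (cl 1 x - cl 1 y)
  linarith

theorem TT_small (y : ℝ) (h : |y| ≤ 1) : TT y = 0 := by
  have := abs_le.1 h
  unfold TT cl
  rw [min_eq_left (by linarith), max_eq_right (by linarith), min_eq_left (by linarith),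
    max_eq_right (by linarith)]
  ring

theorem tt_pt (x y τ : ℝ) (hτ : 0 < τ) :
    |TT y - TT x| ≤ (if 1 / 2 ≤ |x| then τ else 0) + (1 / τ + 4) * (y - x) ^ 2 := by
  have hl := TT_lip y x
  have hs : 0 ≤ (y - x) ^ 2 := sq_nonneg _
  have hs1 : 0 ≤ 1 / τ * (y - x) ^ 2 := by positivity
  have hd : |y - x| ^ 2 = (y - x) ^ 2 := sq_abs _
  by_cases hx : 1 / 2 ≤ |x|
  · rw [if_pos hx]
    have h1 : 2 * |y - x| ≤ τ + 1 / τ * (y - x) ^ 2 := by
      have h2 : 0 ≤ (τ - |y - x|) ^ 2 / τ := by positivity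
      have h3 : (τ - |y - x|) ^ 2 / τ = τ - 2 * |y - x| + 1 / τ * (y - x) ^ 2 := by
        rw [← hd]
        field_simp
        ring
      linarith
    nlinarith
  · rw [if_neg hx]
    push Not at hx
    have hTx : TT x = 0 := TT_small x (by linarith)
    by_cases hy : |y| ≤ 1
    · rw [hTx, TT_small y hy, sub_zero, abs_zero]
      positivity
    · push Not at hy
      have h0 : |y| ≤ |x| + |y - x| := by
        calc |y| = |x + (y - x)| := by ring_nf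
          _ ≤ _ := abs_add_le _ _
      have h1 : 1 / 2 ≤ |y - x| := by linarith
      have h2 : 2 * |y - x| ≤ 4 * (y - x) ^ 2 := by
        rw [← hd]
        nlinarith
      nlinarith

/-- counting points of a set where a quantity is large -/
theorem card_sq {ι : Type} (X : Finset ι) (d : ι → ℝ) (D : ℝ) (hD : ∑ i ∈ X, d i ^ 2 ≤ D) :
    (#(X.filter (fun i => 1 / 4 ≤ |d i|)) : ℝ) ≤ 16 * D := by
  have h1 : (#(X.filter (fun i => 1 / 4 ≤ |d i|)) : ℝ)
      = ∑ i ∈ X.filter (fun i => 1 / 4 ≤ |d i|), (1 : ℝ) := by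
    rw [Finset.sum_const, nsmul_eq_mul, mul_one]
  rw [h1]
  calc ∑ i ∈ X.filter (fun i => 1 / 4 ≤ |d i|), (1 : ℝ)
      ≤ ∑ i ∈ X.filter (fun i => 1 / 4 ≤ |d i|), 16 * d i ^ 2 := by
        apply Finset.sum_le_sum
        intro i hi
        have h2 := (Finset.mem_filter.mp hi).2
        rw [← sq_abs]
        nlinarith
    _ ≤ ∑ i ∈ X, 16 * d i ^ 2 := by
        apply Finset.sum_le_sum_of_subset_of_nonneg (Finset.filter_subset _ _)
        intro i _ _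
        positivity
    _ = 16 * ∑ i ∈ X, d i ^ 2 := by rw [Finset.mul_sum]
    _ ≤ 16 * D := by linarith

/-- transfer of the weight of the large coordinates -/
theorem nu_tr {ι : Type} (X : Finset ι) (g g' : ι → ℝ) (γ : ℝ) (hγ : 0 < γ) (hγ1 : γ ≤ 1) :
    nu g' (X.filter (fun i => γ ≤ |g' i|)) ≤ 2 * nu g (X.filter (fun i => γ / 2 ≤ |g i|))
      + 8 / γ ^ 2 * ∑ i ∈ X, (g' i - g i) ^ 2 := by
  have h1 : nu g' (X.filter (fun i => γ ≤ |g' i|))
      ≤ ∑ i ∈ X.filter (fun i => γ ≤ |g' i|),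
        (2 * (if γ / 2 ≤ |g i| then |g i| ^ (19 / 20 : ℝ) else 0) + 8 / γ ^ 2 * (g' i - g i) ^ 2) := by
    unfold nu
    apply Finset.sum_le_sum
    intro i hi
    exact nu_pt (g i) (g' i) γ hγ hγ1 (Finset.mem_filter.mp hi).2
  have h2 : ∑ i ∈ X.filter (fun i => γ ≤ |g' i|),
        (2 * (if γ / 2 ≤ |g i| then |g i| ^ (19 / 20 : ℝ) else 0) + 8 / γ ^ 2 * (g' i - g i) ^ 2)
      ≤ ∑ i ∈ X,
        (2 * (if γ / 2 ≤ |g i| then |g i| ^ (19 / 20 : ℝ) else 0) + 8 / γ ^ 2 * (g' i - g i) ^ 2) := by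
    apply Finset.sum_le_sum_of_subset_of_nonneg (Finset.filter_subset _ _)
    intro i _ _
    split_ifs <;> positivity
  have h3 : ∑ i ∈ X,
        (2 * (if γ / 2 ≤ |g i| then |g i| ^ (19 / 20 : ℝ) else 0) + 8 / γ ^ 2 * (g' i - g i) ^ 2)
      = 2 * nu g (X.filter (fun i => γ / 2 ≤ |g i|)) + 8 / γ ^ 2 * ∑ i ∈ X, (g' i - g i) ^ 2 := by
    rw [Finset.sum_add_distrib, ← Finset.mul_sum, ← Finset.mul_sum]
    congr 2
    unfold nu
    rw [Finset.sum_filter]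
  linarith

/-- transfer of the square sum of the small coordinates -/
theorem sq_tr {ι : Type} (X : Finset ι) (g g' : ι → ℝ) (γ : ℝ) :
    ∑ i ∈ X.filter (fun i => |g' i| < γ), g' i ^ 2
      ≤ 2 * ∑ i ∈ X.filter (fun i => |g i| < 2 * γ), g i ^ 2
      + 2 * ∑ i ∈ X, (g' i - g i) ^ 2 := by
  have h1 : ∑ i ∈ X.filter (fun i => |g' i| < γ), g' i ^ 2
      ≤ ∑ i ∈ X.filter (fun i => |g' i| < γ),
        (2 * (if |g i| < 2 * γ then g i ^ 2 else 0) + 2 * (g' i - g i) ^ 2) := by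
    apply Finset.sum_le_sum
    intro i hi
    exact sq_pt (g i) (g' i) γ (Finset.mem_filter.mp hi).2
  have h2 : ∑ i ∈ X.filter (fun i => |g' i| < γ),
        (2 * (if |g i| < 2 * γ then g i ^ 2 else 0) + 2 * (g' i - g i) ^ 2)
      ≤ ∑ i ∈ X, (2 * (if |g i| < 2 * γ then g i ^ 2 else 0) + 2 * (g' i - g i) ^ 2) := by
    apply Finset.sum_le_sum_of_subset_of_nonneg (Finset.filter_subset _ _)
    intro i _ _
    split_ifs <;> positivity
  have h3 : ∑ i ∈ X, (2 * (if |g i| < 2 * γ then g i ^ 2 else 0) + 2 * (g' i - g i) ^ 2)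
      = 2 * ∑ i ∈ X.filter (fun i => |g i| < 2 * γ), g i ^ 2
      + 2 * ∑ i ∈ X, (g' i - g i) ^ 2 := by
    rw [Finset.sum_add_distrib, ← Finset.mul_sum, ← Finset.mul_sum]
    congr 2
    rw [Finset.sum_filter]
  linarith

theorem card_tr {ι : Type} (X : Finset ι) (g g' : ι → ℝ) (D : ℝ)
    (hD : ∑ i ∈ X, (g' i - g i) ^ 2 ≤ D) :
    (#(X.filter (fun i => 1 / 2 ≤ |g' i|)) : ℝ)
      ≤ (#(X.filter (fun i => 1 / 4 ≤ |g i|)) : ℝ) + 16 * D := by
  have h1 := card_sq X (fun i => g' i - g i) D hD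
  have h2 : X.filter (fun i => 1 / 2 ≤ |g' i|)
      ⊆ X.filter (fun i => 1 / 4 ≤ |g i|) ∪ X.filter (fun i => 1 / 4 ≤ |g' i - g i|) := by
    intro i hi
    obtain ⟨hi1, hi2⟩ := Finset.mem_filter.mp hi
    rw [Finset.mem_union, Finset.mem_filter, Finset.mem_filter]
    by_cases h : 1 / 4 ≤ |g i|
    · exact Or.inl ⟨hi1, h⟩
    · right
      refine ⟨hi1, ?_⟩
      push Not at h
      have h0 : |g' i| ≤ |g i| + |g' i - g i| := by
        calc |g' i| = |g i + (g' i - g i)| := by ring_nf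
          _ ≤ _ := abs_add_le _ _
      linarith
  have h3 := (Finset.card_le_card h2).trans (Finset.card_union_le _ _)
  have h4 : (#(X.filter (fun i => 1 / 2 ≤ |g' i|)) : ℝ)
      ≤ (#(X.filter (fun i => 1 / 4 ≤ |g i|)) : ℝ) + (#(X.filter (fun i => 1 / 4 ≤ |g' i - g i|)) : ℝ) := by
    exact_mod_cast h3
  linarith

theorem TT_tr {ι : Type} (X : Finset ι) (g g' : ι → ℝ) (D τ : ℝ) (hτ : 0 < τ)
    (hD : ∑ i ∈ X, (g' i - g i) ^ 2 ≤ D) :
    ∑ i ∈ X, |TT (g' i) - TT (g i)|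
      ≤ τ * (#(X.filter (fun i => 1 / 2 ≤ |g i|)) : ℝ) + (1 / τ + 4) * D := by
  calc ∑ i ∈ X, |TT (g' i) - TT (g i)|
      ≤ ∑ i ∈ X, ((if 1 / 2 ≤ |g i| then τ else 0) + (1 / τ + 4) * (g' i - g i) ^ 2) :=
        Finset.sum_le_sum (fun i _ => tt_pt (g i) (g' i) τ hτ)
    _ = τ * (#(X.filter (fun i => 1 / 2 ≤ |g i|)) : ℝ)
        + (1 / τ + 4) * ∑ i ∈ X, (g' i - g i) ^ 2 := by
        rw [Finset.sum_add_distrib, ← Finset.mul_sum, ← Finset.sum_filter, Finset.sum_const,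
          nsmul_eq_mul]
        ring
    _ ≤ _ := by
        have : (1 / τ + 4) * ∑ i ∈ X, (g' i - g i) ^ 2 ≤ (1 / τ + 4) * D :=
          mul_le_mul_of_nonneg_left hD (by positivity)
        linarith

theorem st_PIECE2 (hLEV : ST_LEVEL2) (hPROF : ST_PROF) (hQ : ST_QUANT) (hPART : ST_PART) :
    ST_PIECE2 := by
  obtain ⟨C0, hC0, hlev⟩ := hLEV
  obtain ⟨D0, hD0, hprof⟩ := hPROF
  intro β hβ hβ1
  have hββ : β ^ 2 ≤ 1 := by nlinarith
  have hC0p : 0 < C0 := by linarith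
  have hD0p : 0 < D0 := by linarith
  refine ⟨2048 * C0 / β ^ 2, ?_, ?_⟩
  · rw [le_div_iff₀ (by positivity)]
    nlinarith
  intro ε hε hε1
  obtain ⟨e0, he0⟩ : ∃ e0 : ℝ, e0 = ε * β / 32 := ⟨_, rfl⟩
  have he0p : 0 < e0 := by rw [he0]; positivity
  have he01 : e0 ≤ 1 := by
    rw [he0]
    nlinarith
  obtain ⟨t, ht⟩ : ∃ t : ℝ, t = e0 * β / (32 * (D0 * C0)) := ⟨_, rfl⟩
  have hDC : 1 ≤ D0 * C0 := by nlinarith
  have ht0 : 0 < t := by rw [ht]; positivity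
  have ht1 : t ≤ 1 := by
    rw [ht, div_le_one (by positivity)]
    nlinarith
  have hte : 8 * (D0 * C0) * t / β = e0 / 4 := by
    rw [ht]
    field_simp
    ring
  obtain ⟨γ, hγdef⟩ : ∃ γ : ℝ, γ = t ^ 2 / 2 := ⟨_, rfl⟩
  have hγ : 0 < γ := by rw [hγdef]; positivity
  have hγh : γ ≤ 1 / 2 := by
    rw [hγdef]
    nlinarith
  have hγ1 : γ ≤ 1 := by linarith
  have hsq : Real.sqrt (2 * γ) = t := by
    rw [hγdef]
    have : 2 * (t ^ 2 / 2) = t ^ 2 := by ring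
    rw [this]
    exact Real.sqrt_sq ht0.le
  obtain ⟨c2, hc2⟩ : ∃ c2 : ℝ, c2 = 2 * (4 * (D0 * C0) / γ + C0) := ⟨_, rfl⟩
  obtain ⟨c1, hc1⟩ : ∃ c1 : ℝ, c1 = 2 * (8 * (D0 * C0) / (γ * β) + 2 * C0) := ⟨_, rfl⟩
  obtain ⟨c3, hc3⟩ : ∃ c3 : ℝ, c3 = 64 * C0 / β := ⟨_, rfl⟩
  have hc1p : 0 < c1 := by rw [hc1]; positivity
  have hc2p : 0 < c2 := by rw [hc2]; positivity
  have hc3p : 0 < c3 := by rw [hc3]; positivity
  obtain ⟨κ, hκdef⟩ : ∃ κ : ℝ, κ = min 1 (γ * e0 / (80 * c1)) := ⟨_, rfl⟩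
  have hκ : 0 < κ := by rw [hκdef]; exact lt_min one_pos (by positivity)
  have hκ1 : κ ≤ 1 := by rw [hκdef]; exact min_le_left _ _
  have hκ2 : 40 * κ / γ * c1 ≤ e0 / 2 := by
    have h1 : κ ≤ γ * e0 / (80 * c1) := by rw [hκdef]; exact min_le_right _ _
    have h2 : 40 * κ / γ * c1 = κ * (40 * c1 / γ) := by ring
    have h3 : γ * e0 / (80 * c1) * (40 * c1 / γ) = e0 / 2 := by
      field_simp
      ring
    rw [h2, ← h3]
    exact mul_le_mul_of_nonneg_right h1 (by positivity)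
  refine ⟨γ, κ, max 1 (32 / β * (c1 + c2)), hγ, hγ1, hκ, hκ1, le_max_left _ _, ?_⟩
  intro L hL
  have hL0 : 0 < L := by linarith
  -- the parameter of the comparison of `TT`
  obtain ⟨τ, hτdef⟩ : ∃ τ : ℝ, τ = β ^ 2 / (1600 * C0) := ⟨_, rfl⟩
  have hτ : 0 < τ := by rw [hτdef]; positivity
  have hτ2 : 0 < 1 / τ + 4 := by positivity
  obtain ⟨δ, hδdef⟩ : ∃ δ : ℝ, δ = min (min (γ ^ 2 / (9 * L)) (e0 / (24 * C0)))
    (min (β / (100 * C0 * (1 / τ + 4))) 1) := ⟨_, rfl⟩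
  have hδ : 0 < δ := by
    rw [hδdef]
    exact lt_min (lt_min (by positivity) (by positivity)) (lt_min (by positivity) one_pos)
  have hδ1 : δ * (9 * L) ≤ γ ^ 2 := by
    have h1 : δ ≤ γ ^ 2 / (9 * L) := by
      rw [hδdef]
      exact (min_le_left _ _).trans (min_le_left _ _)
    rwa [le_div_iff₀ (by positivity)] at h1
  have hδ2 : δ * (24 * C0) ≤ e0 := by
    have h1 : δ ≤ e0 / (24 * C0) := by
      rw [hδdef]
      exact (min_le_left _ _).trans (min_le_right _ _)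
    rwa [le_div_iff₀ (by positivity)] at h1
  have hδ3 : δ * (100 * C0 * (1 / τ + 4)) ≤ β := by
    have h1 : δ ≤ β / (100 * C0 * (1 / τ + 4)) := by
      rw [hδdef]
      exact (min_le_right _ _).trans (min_le_left _ _)
    rwa [le_div_iff₀ (by positivity)] at h1
  have hδ4 : δ ≤ 1 := by
    rw [hδdef]
    exact (min_le_right _ _).trans (min_le_right _ _)
  obtain ⟨θ0, hθ0, hθ1, hquant⟩ := hQ δ γ hδ hγ hγ1
  refine ⟨θ0, hθ0, hθ1, ?_⟩
  intro ι _ P V W th B f ξ hP hVW hB hf hξ hbad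
  -- level selection
  obtain ⟨w, hw⟩ : ∃ w : ι → ℝ, w = fun i => if i ∈ W then th i ^ (1 / 200 : ℝ) else L := ⟨_, rfl⟩
  have hw0 : ∀ i, 0 ≤ w i := by
    intro i
    rw [hw]
    simp only
    split_ifs with h
    · exact Real.rpow_nonneg (hB.pos i h).le _
    · exact hL0.le
  have hsplit : ∀ φ : ι → ℝ, ∑ i ∈ Vᶜ, φ i = ∑ i ∈ (V ∪ W)ᶜ, φ i + ∑ i ∈ W, φ i := by
    intro φ
    have h1 : Vᶜ = (V ∪ W)ᶜ ∪ W := by
      ext i
      simp only [mem_compl, mem_union]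
      have h2 : i ∈ W → i ∉ V := fun h3 h4 => (Finset.disjoint_left.mp hVW) h4 h3
      tauto
    rw [h1, Finset.sum_union]
    rw [Finset.disjoint_left]
    intro i hi hi2
    exact (Finset.mem_compl.mp hi) (Finset.mem_union_right _ hi2)
  have hbad2 : β * l1 f V + ∑ i ∈ Vᶜ, w i * |f i| < ∑ i ∈ V, ξ i * f i := by
    rw [hsplit (fun i => w i * |f i|)]
    have h1 : ∑ i ∈ (V ∪ W)ᶜ, w i * |f i| = L * l1 f (V ∪ W)ᶜ := by
      unfold l1
      rw [Finset.mul_sum]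
      apply Finset.sum_congr rfl
      intro i hi
      have h2 : i ∉ W := fun h3 => (Finset.mem_compl.mp hi) (Finset.mem_union_right _ h3)
      rw [hw]
      simp only [h2, if_false]
    have h3 : ∑ i ∈ W, w i * |f i| = ∑ i ∈ W, th i ^ (1 / 200 : ℝ) * |f i| := by
      apply Finset.sum_congr rfl
      intro i hi
      rw [hw]
      simp only [hi, if_true]
    rw [h1, h3]
    linarith
  obtain ⟨s, hs, hn0, hb, hN⟩ := hlev ι V f ξ w β hβ hβ1 hw0 hξ hbad2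
  obtain ⟨g, hgdef⟩ : ∃ g : ι → ℝ, g = fun i => s * f i := ⟨_, rfl⟩
  have hgi : ∀ i, s * f i = g i := by
    intro i
    rw [hgdef]
  simp only [hgi] at hn0 hb hN
  obtain ⟨n, hn⟩ : ∃ n : ℝ, n = ∑ i ∈ V, |TT (g i)| := ⟨_, rfl⟩
  rw [← hn] at hn0 hb hN
  have hg : ap P g = g := by
    rw [hgdef]
    funext i
    rw [ap_smul, hf]
  -- profiles
  have hA0 : 0 ≤ C0 * n := by positivity
  have hNV : ∀ h : ℤ, (2 : ℝ) ^ h * (#(V.filter (fun i => (2 : ℝ) ^ (h + 1) ≤ |g i|)) : ℝ)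
      ≤ C0 * n / β * (2 : ℝ) ^ (|(h : ℝ)| / 40) := by
    intro h
    have h1 := hN h
    have h2 : (0 : ℝ) < (2 : ℝ) ^ h := by positivity
    have h3 : 0 ≤ (2 : ℝ) ^ h * ∑ i ∈ Vᶜ.filter (fun i => (2 : ℝ) ^ (h + 1) ≤ |g i|), w i :=
      mul_nonneg h2.le (Finset.sum_nonneg (fun i _ => hw0 i))
    have h4 : C0 * n / β * (2 : ℝ) ^ (|(h : ℝ)| / 40)
        = (C0 * (2 : ℝ) ^ (|(h : ℝ)| / 40) * n) / β := by ring
    rw [h4, le_div_iff₀ hβ]
    nlinarith
  have hNQ : ∀ h : ℤ, (2 : ℝ) ^ h * (#((V ∪ W)ᶜ.filter (fun i => (2 : ℝ) ^ (h + 1) ≤ |g i|)) : ℝ)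
      ≤ C0 * n / L * (2 : ℝ) ^ (|(h : ℝ)| / 40) := by
    intro h
    have h1 := hN h
    have h2 : (0 : ℝ) < (2 : ℝ) ^ h := by positivity
    have h3 : L * (#((V ∪ W)ᶜ.filter (fun i => (2 : ℝ) ^ (h + 1) ≤ |g i|)) : ℝ)
        ≤ ∑ i ∈ Vᶜ.filter (fun i => (2 : ℝ) ^ (h + 1) ≤ |g i|), w i := by
      have e1 : L * (#((V ∪ W)ᶜ.filter (fun i => (2 : ℝ) ^ (h + 1) ≤ |g i|)) : ℝ)
          = ∑ i ∈ (V ∪ W)ᶜ.filter (fun i => (2 : ℝ) ^ (h + 1) ≤ |g i|), w i := by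
        rw [Finset.sum_congr rfl (g := fun _ => L)]
        · rw [Finset.sum_const, nsmul_eq_mul, mul_comm]
        · intro i hi
          have h2 : i ∉ W := fun h3 =>
            (Finset.mem_compl.mp (Finset.mem_filter.mp hi).1) (Finset.mem_union_right _ h3)
          rw [hw]
          simp only [h2, if_false]
      rw [e1]
      apply Finset.sum_le_sum_of_subset_of_nonneg
      · apply Finset.filter_subset_filter
        intro i hi
        rw [Finset.mem_compl] at hi ⊢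
        exact fun h4 => hi (Finset.mem_union_left _ h4)
      · intro i _ _
        exact hw0 i
    have h3' : 0 ≤ (2 : ℝ) ^ h * (β * (#(V.filter (fun i => (2 : ℝ) ^ (h + 1) ≤ |g i|)) : ℝ)) := by
      positivity
    have h4 : C0 * n / L * (2 : ℝ) ^ (|(h : ℝ)| / 40)
        = (C0 * (2 : ℝ) ^ (|(h : ℝ)| / 40) * n) / L := by ring
    rw [h4, le_div_iff₀ hL0]
    have h5 := mul_le_mul_of_nonneg_left h3 h2.le
    have h6 : (2 : ℝ) ^ h * (#((V ∪ W)ᶜ.filter (fun i => (2 : ℝ) ^ (h + 1) ≤ |g i|)) : ℝ) * L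
        = (2 : ℝ) ^ h * (L * (#((V ∪ W)ᶜ.filter (fun i => (2 : ℝ) ^ (h + 1) ≤ |g i|)) : ℝ)) := by ring
    rw [h6]
    linarith
  have hNW : ∀ h : ℤ, (2 : ℝ) ^ h * ∑ i ∈ W.filter (fun i => (2 : ℝ) ^ (h + 1) ≤ |g i|),
      th i ^ (1 / 200 : ℝ) ≤ C0 * n * (2 : ℝ) ^ (|(h : ℝ)| / 40) := by
    intro h
    have h1 := hN h
    have h2 : (0 : ℝ) < (2 : ℝ) ^ h := by positivity
    have h3 : ∑ i ∈ W.filter (fun i => (2 : ℝ) ^ (h + 1) ≤ |g i|), th i ^ (1 / 200 : ℝ)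
        ≤ ∑ i ∈ Vᶜ.filter (fun i => (2 : ℝ) ^ (h + 1) ≤ |g i|), w i := by
      have e1 : ∑ i ∈ W.filter (fun i => (2 : ℝ) ^ (h + 1) ≤ |g i|), th i ^ (1 / 200 : ℝ)
          = ∑ i ∈ W.filter (fun i => (2 : ℝ) ^ (h + 1) ≤ |g i|), w i := by
        apply Finset.sum_congr rfl
        intro i hi
        have h2 : i ∈ W := (Finset.mem_filter.mp hi).1
        rw [hw]
        simp only [h2, if_true]
      rw [e1]
      apply Finset.sum_le_sum_of_subset_of_nonneg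
      · apply Finset.filter_subset_filter
        intro i hi
        rw [Finset.mem_compl]
        exact fun h4 => (Finset.disjoint_left.mp hVW) h4 hi
      · intro i _ _
        exact hw0 i
    have h3' : 0 ≤ (2 : ℝ) ^ h * (β * (#(V.filter (fun i => (2 : ℝ) ^ (h + 1) ≤ |g i|)) : ℝ)) := by
      positivity
    have h5 := mul_le_mul_of_nonneg_left h3 h2.le
    have h6 : C0 * n * (2 : ℝ) ^ (|(h : ℝ)| / 40) = C0 * (2 : ℝ) ^ (|(h : ℝ)| / 40) * n := by ring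
    rw [h6]
    linarith
  obtain ⟨hV1, -⟩ := hprof ι V g (C0 * n / β) (γ / 2) (by positivity) (by positivity)
    (by linarith) hNV
  obtain ⟨-, hV2⟩ := hprof ι V g (C0 * n / β) (2 * γ) (by positivity) (by positivity)
    (by linarith) hNV
  obtain ⟨hM1, -⟩ := hprof ι (V ∪ W)ᶜ g (C0 * n / L) (γ / 2) (by positivity) (by positivity)
    (by linarith) hNQ
  obtain ⟨-, hM2⟩ := hprof ι (V ∪ W)ᶜ g (C0 * n / L) (2 * γ) (by positivity) (by positivity)
    (by linarith) hNQ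
  rw [hsq] at hV2 hM2
  obtain ⟨g', hg', hdif, hW1, hW2⟩ := hquant ι P W th B g (C0 * n) hB hg hA0 hNW
  obtain ⟨D, hD⟩ : ∃ D : ℝ, D = δ * (C0 * n) := ⟨_, rfl⟩
  rw [← hD] at hdif hW1 hW2
  have hD0' : 0 ≤ D := by rw [hD]; positivity
  have hsub : ∑ i ∈ V, (g' i - g i) ^ 2 + ∑ i ∈ (V ∪ W)ᶜ, (g' i - g i) ^ 2 ≤ D := by
    have h1 : Wᶜ = V ∪ (V ∪ W)ᶜ := by
      ext i
      simp only [mem_compl, mem_union]
      have h2 : i ∈ V → i ∉ W := fun h3 h4 => (Finset.disjoint_left.mp hVW) h3 h4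
      tauto
    rw [h1, Finset.sum_union] at hdif
    · exact hdif
    · rw [Finset.disjoint_left]
      intro i hi hi2
      exact (Finset.mem_compl.mp hi2) (Finset.mem_union_left _ hi)
  have hd1 : 0 ≤ ∑ i ∈ V, (g' i - g i) ^ 2 := Finset.sum_nonneg (fun i _ => sq_nonneg _)
  have hd2 : 0 ≤ ∑ i ∈ (V ∪ W)ᶜ, (g' i - g i) ^ 2 := Finset.sum_nonneg (fun i _ => sq_nonneg _)
  -- cardinalities
  have hk2 : (#(V.filter (fun i => 1 / 2 ≤ |g i|)) : ℝ) ≤ 16 * C0 / β * n := by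
    have h1 := hNV (-2)
    have h3 : (2 : ℝ) ^ ((-2 : ℤ) + 1) = 1 / 2 := by norm_num
    have h4 : (2 : ℝ) ^ (-2 : ℤ) = 1 / 4 := by norm_num
    have h5 : (2 : ℝ) ^ (|((-2 : ℤ) : ℝ)| / 40) ≤ 2 := by
      have h6 : |((-2 : ℤ) : ℝ)| / 40 ≤ 1 := by
        push_cast
        rw [abs_neg, abs_of_pos (by norm_num : (0 : ℝ) < 2)]
        norm_num
      have h7 := Real.rpow_le_rpow_of_exponent_le (by norm_num : (1 : ℝ) ≤ 2) h6
      rwa [Real.rpow_one] at h7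
    rw [h3, h4] at h1
    have h6 : C0 * n / β * (2 : ℝ) ^ (|((-2 : ℤ) : ℝ)| / 40) ≤ C0 * n / β * 2 :=
      mul_le_mul_of_nonneg_left h5 (by positivity)
    have h7 : 16 * C0 / β * n = 16 * (C0 * n / β) := by ring
    rw [h7]
    have h8 : 0 ≤ C0 * n / β := by positivity
    linarith
  have hk4 : (#(V.filter (fun i => 1 / 4 ≤ |g i|)) : ℝ) ≤ 16 * C0 / β * n := by
    have h1 := hNV (-3)
    have h3 : (2 : ℝ) ^ ((-3 : ℤ) + 1) = 1 / 4 := by norm_num
    have h4 : (2 : ℝ) ^ (-3 : ℤ) = 1 / 8 := by norm_num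
    have h5 : (2 : ℝ) ^ (|((-3 : ℤ) : ℝ)| / 40) ≤ 2 := by
      have h6 : |((-3 : ℤ) : ℝ)| / 40 ≤ 1 := by
        push_cast
        rw [abs_neg, abs_of_pos (by norm_num : (0 : ℝ) < 3)]
        norm_num
      have h7 := Real.rpow_le_rpow_of_exponent_le (by norm_num : (1 : ℝ) ≤ 2) h6
      rwa [Real.rpow_one] at h7
    rw [h3, h4] at h1
    have h6 : C0 * n / β * (2 : ℝ) ^ (|((-3 : ℤ) : ℝ)| / 40) ≤ C0 * n / β * 2 :=
      mul_le_mul_of_nonneg_left h5 (by positivity)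
    have h7 : 16 * C0 / β * n = 16 * (C0 * n / β) := by ring
    rw [h7]
    linarith
  -- comparison of the functionals
  have hTT : ∑ i ∈ V, |TT (g' i) - TT (g i)| ≤ β / 50 * n := by
    have h1 := TT_tr V g g' D τ hτ (by linarith)
    have h2 : τ * (#(V.filter (fun i => 1 / 2 ≤ |g i|)) : ℝ) ≤ β / 100 * n := by
      have h3 := mul_le_mul_of_nonneg_left hk2 hτ.le
      have h4 : τ * (16 * C0 / β * n) = β / 100 * n := by
        rw [hτdef]
        field_simp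
        ring
      linarith
    have h5 : (1 / τ + 4) * D ≤ β / 100 * n := by
      have h6 : (1 / τ + 4) * D = δ * (100 * C0 * (1 / τ + 4)) * (n / 100) := by
        rw [hD]
        ring
      have h7 : β / 100 * n = β * (n / 100) := by ring
      rw [h6, h7]
      exact mul_le_mul_of_nonneg_right hδ3 (by positivity)
    linarith
  obtain ⟨m0, hm0e⟩ : ∃ m0 : ℝ, m0 = ∑ i ∈ V, |TT (g' i)| := ⟨_, rfl⟩
  have hm1 : m0 ≤ n + β / 50 * n := by
    have h1 : ∑ i ∈ V, |TT (g' i)| ≤ ∑ i ∈ V, (|TT (g i)| + |TT (g' i) - TT (g i)|) := by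
      apply Finset.sum_le_sum
      intro i _
      calc |TT (g' i)| = |TT (g i) + (TT (g' i) - TT (g i))| := by ring_nf
        _ ≤ _ := abs_add_le _ _
    rw [Finset.sum_add_distrib] at h1
    rw [hm0e]
    linarith
  have hm2 : n ≤ m0 + β / 50 * n := by
    have h1 : ∑ i ∈ V, |TT (g i)| ≤ ∑ i ∈ V, (|TT (g' i)| + |TT (g' i) - TT (g i)|) := by
      apply Finset.sum_le_sum
      intro i _
      calc |TT (g i)| = |TT (g' i) - (TT (g' i) - TT (g i))| := by ring_nf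
        _ ≤ _ := abs_sub _ _
    rw [Finset.sum_add_distrib] at h1
    linarith
  have hβn : β * n ≤ n := by nlinarith
  have hn2 : n ≤ 2 * m0 := by linarith
  have hm0 : 0 < m0 := by linarith
  have hgain : 2 / 5 * β * m0 ≤ ∑ i ∈ V, ξ i * TT (g' i) := by
    have h1 : ∑ i ∈ V, ξ i * TT (g i) ≤ ∑ i ∈ V, (ξ i * TT (g' i) + |TT (g' i) - TT (g i)|) := by
      apply Finset.sum_le_sum
      intro i hi
      have h2 : |ξ i * (TT (g i) - TT (g' i))| ≤ 1 * |TT (g i) - TT (g' i)| := by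
        rw [abs_mul]
        exact mul_le_mul_of_nonneg_right (hξ i hi) (abs_nonneg _)
      have h3 := le_abs_self (ξ i * (TT (g i) - TT (g' i)))
      rw [abs_sub_comm (TT (g i))] at h2
      have h4 : ξ i * TT (g i) = ξ i * TT (g' i) + ξ i * (TT (g i) - TT (g' i)) := by ring
      rw [h4]
      linarith
    rw [Finset.sum_add_distrib] at h1
    have h5 : 0 < β * n := by positivity
    have h6 : β * m0 ≤ β * (n + β / 50 * n) := mul_le_mul_of_nonneg_left hm1 hβ.le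
    have h7 : β * (β / 50 * n) ≤ β * n / 50 := by
      have : β * (β * n) ≤ β * n := mul_le_mul_of_nonneg_left hβn hβ.le
      linarith
    have h8 : β * (n + β / 50 * n) = β * n + β * (β / 50 * n) := by ring
    linarith
  -- the three parts of the large set
  have hLβ : C0 * n / L ≤ C0 * n / β :=
    div_le_div_of_nonneg_left (by positivity) hβ (by linarith)
  have hG1 : univ.filter (fun i => γ ≤ |g' i|) ∩ V = V.filter (fun i => γ ≤ |g' i|) := by
    ext i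
    simp only [mem_inter, mem_filter, mem_univ, true_and]
    tauto
  have hG2 : univ.filter (fun i => γ ≤ |g' i|) \ V
      = (V ∪ W)ᶜ.filter (fun i => γ ≤ |g' i|) ∪ W.filter (fun i => γ ≤ |g' i|) := by
    ext i
    simp only [mem_sdiff, mem_union, mem_filter, mem_univ, true_and, mem_compl]
    have h2 : i ∈ W → i ∉ V := fun h3 h4 => (Finset.disjoint_left.mp hVW) h4 h3
    tauto
  have hdisj : Disjoint ((V ∪ W)ᶜ.filter (fun i => γ ≤ |g' i|)) (W.filter (fun i => γ ≤ |g' i|)) := by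
    rw [Finset.disjoint_left]
    intro i hi hi2
    exact (Finset.mem_compl.mp (Finset.mem_filter.mp hi).1)
      (Finset.mem_union_right _ (Finset.mem_filter.mp hi2).1)
  have hpiece : 8 / γ ^ 2 * D + D ≤ C0 * n / L := by
    have h1 : 8 / γ ^ 2 * D + D ≤ 9 / γ ^ 2 * D := by
      have h2 : 1 ≤ 1 / γ ^ 2 := by
        rw [le_div_iff₀ (by positivity)]
        nlinarith
      have h3 : D ≤ 1 / γ ^ 2 * D := by nlinarith
      have h4 : 9 / γ ^ 2 * D = 8 / γ ^ 2 * D + 1 / γ ^ 2 * D := by ring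
      linarith
    have h5 : 9 / γ ^ 2 * D = (δ * (9 * L)) * (C0 * n / (γ ^ 2 * L)) := by
      rw [hD]
      field_simp
    have h6 : γ ^ 2 * (C0 * n / (γ ^ 2 * L)) = C0 * n / L := by
      field_simp
    have h7 := mul_le_mul_of_nonneg_right hδ1 (by positivity : 0 ≤ C0 * n / (γ ^ 2 * L))
    linarith
  have hnuM0 : nu g' (univ.filter (fun i => γ ≤ |g' i|) \ V)
      ≤ (4 * (D0 * C0) / γ + C0) * (n / L) := by
    rw [hG2, nu_union g' hdisj]
    have h1 := nu_tr (V ∪ W)ᶜ g g' γ hγ hγ1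
    have h2 : 8 / γ ^ 2 * ∑ i ∈ (V ∪ W)ᶜ, (g' i - g i) ^ 2 ≤ 8 / γ ^ 2 * D :=
      mul_le_mul_of_nonneg_left (by linarith) (by positivity)
    have h3 : (4 * (D0 * C0) / γ + C0) * (n / L)
        = 2 * (D0 / (γ / 2) * (C0 * n / L)) + C0 * n / L := by
      field_simp
      ring
    rw [h3]
    linarith
  have hnuV0 : nu g' (univ.filter (fun i => γ ≤ |g' i|) ∩ V)
      ≤ (4 * (D0 * C0) / (γ * β) + C0) * n := by
    rw [hG1]
    have h1 := nu_tr V g g' γ hγ hγ1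
    have h2 : 8 / γ ^ 2 * ∑ i ∈ V, (g' i - g i) ^ 2 ≤ 8 / γ ^ 2 * D :=
      mul_le_mul_of_nonneg_left (by linarith) (by positivity)
    have h3 : (4 * (D0 * C0) / (γ * β) + C0) * n
        = 2 * (D0 / (γ / 2) * (C0 * n / β)) + C0 * n := by
      field_simp
      ring
    have h4 : C0 * n / L ≤ C0 * n := by
      rw [div_le_iff₀ hL0]
      nlinarith
    rw [h3]
    linarith
  have hnuM : nu g' (univ.filter (fun i => γ ≤ |g' i|) \ V) ≤ c2 * m0 / L := by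
    refine hnuM0.trans ?_
    have h1 : c2 * m0 / L = (4 * (D0 * C0) / γ + C0) * (2 * m0 / L) := by
      rw [hc2]
      ring
    rw [h1]
    apply mul_le_mul_of_nonneg_left _ (by positivity)
    exact div_le_div_of_nonneg_right hn2 hL0.le
  have hnuG : nu g' (univ.filter (fun i => γ ≤ |g' i|)) ≤ c1 * m0 := by
    have h1 : nu g' (univ.filter (fun i => γ ≤ |g' i|))
        = nu g' (univ.filter (fun i => γ ≤ |g' i|) ∩ V)
          + nu g' (univ.filter (fun i => γ ≤ |g' i|) \ V) := by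
      unfold nu
      exact (Finset.sum_inter_add_sum_sdiff _ V _).symm
    have h2 : (4 * (D0 * C0) / γ + C0) * (n / L) ≤ (4 * (D0 * C0) / (γ * β) + C0) * n := by
      have h3 : n / L ≤ n := by
        rw [div_le_iff₀ hL0]
        nlinarith
      have h4 : 4 * (D0 * C0) / γ ≤ 4 * (D0 * C0) / (γ * β) := by
        apply div_le_div_of_nonneg_left (by positivity) (by positivity)
        nlinarith
      calc (4 * (D0 * C0) / γ + C0) * (n / L) ≤ (4 * (D0 * C0) / γ + C0) * n :=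
            mul_le_mul_of_nonneg_left h3 (by positivity)
        _ ≤ _ := mul_le_mul_of_nonneg_right (by linarith) hn0.le
    have h5 : c1 * m0 = (4 * (D0 * C0) / (γ * β) + C0) * (2 * (2 * m0)) := by
      rw [hc1]
      ring
    have h6 : (4 * (D0 * C0) / (γ * β) + C0) * n ≤ (4 * (D0 * C0) / (γ * β) + C0) * (2 * m0) :=
      mul_le_mul_of_nonneg_left hn2 (by positivity)
    rw [h1, h5]
    have h7 : (4 * (D0 * C0) / (γ * β) + C0) * (2 * (2 * m0))
        = 2 * ((4 * (D0 * C0) / (γ * β) + C0) * (2 * m0)) := by ring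
    rw [h7]
    linarith
  have hDG : DD P g' (univ.filter (fun i => γ ≤ |g' i|)) ≤ e0 / 2 * m0 := by
    refine (DD_large hP g' hg' _).trans ?_
    have h1 : ∑ i ∈ (univ.filter (fun i => γ ≤ |g' i|))ᶜ, g' i ^ 2
        = ∑ i ∈ V.filter (fun i => |g' i| < γ), g' i ^ 2
        + (∑ i ∈ (V ∪ W)ᶜ.filter (fun i => |g' i| < γ), g' i ^ 2
        + ∑ i ∈ W.filter (fun i => |g' i| < γ), g' i ^ 2) := by
      rw [← Finset.sum_union (s₁ := (V ∪ W)ᶜ.filter (fun i => |g' i| < γ)),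
        ← Finset.sum_union]
      · apply Finset.sum_congr _ (fun _ _ => rfl)
        ext i
        simp only [mem_compl, mem_union, mem_filter, mem_univ, true_and, not_le]
        tauto
      · rw [Finset.disjoint_left]
        intro i hi hi2
        have hiV := (Finset.mem_filter.mp hi).1
        rcases Finset.mem_union.mp hi2 with h2 | h2
        · exact (Finset.mem_compl.mp (Finset.mem_filter.mp h2).1) (Finset.mem_union_left _ hiV)
        · exact (Finset.disjoint_left.mp hVW) hiV (Finset.mem_filter.mp h2).1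
      · rw [Finset.disjoint_left]
        intro i hi hi2
        exact (Finset.mem_compl.mp (Finset.mem_filter.mp hi).1)
          (Finset.mem_union_right _ (Finset.mem_filter.mp hi2).1)
    have h2 := sq_tr V g g' γ
    have h3 := sq_tr (V ∪ W)ᶜ g g' γ
    have h4 : D0 * t * (C0 * n / L) ≤ D0 * t * (C0 * n / β) :=
      mul_le_mul_of_nonneg_left hLβ (by positivity)
    have h5 : ∑ i ∈ (univ.filter (fun i => γ ≤ |g' i|))ᶜ, g' i ^ 2
        ≤ 4 * (D0 * t * (C0 * n / β)) + 3 * D := by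
      rw [h1]
      linarith
    refine h5.trans ?_
    have h6 : 4 * (D0 * t * (C0 * n / β)) = (8 * (D0 * C0) * t / β) * (n / 2) := by ring
    have h7 : 3 * D = (δ * (24 * C0)) * (n / 8) := by
      rw [hD]
      ring
    have h8 : δ * (24 * C0) * (n / 8) ≤ e0 * (n / 8) :=
      mul_le_mul_of_nonneg_right hδ2 (by positivity)
    rw [h6, h7, hte]
    have h9 : e0 * n ≤ e0 * (2 * m0) := mul_le_mul_of_nonneg_left hn2 he0p.le
    have h10 : 0 < e0 * m0 := by positivity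
    linarith
  have hcard : (#((univ.filter (fun i => γ ≤ |g' i|) ∩ V).filter (fun i => 1 / 2 ≤ |g' i|)) : ℝ)
      ≤ c3 * m0 := by
    have h1 := card_tr V g g' D (by linarith)
    have h2 : (#((univ.filter (fun i => γ ≤ |g' i|) ∩ V).filter (fun i => 1 / 2 ≤ |g' i|)) : ℝ)
        ≤ (#(V.filter (fun i => 1 / 2 ≤ |g' i|)) : ℝ) := by
      exact_mod_cast Finset.card_le_card (by
        intro i hi
        rw [Finset.mem_filter] at hi ⊢
        exact ⟨(Finset.mem_inter.mp hi.1).2, hi.2⟩)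
    have h3 : 16 * D ≤ 16 * C0 / β * n := by
      have h4 : 16 * C0 / β * n = 16 * (C0 * n) / β := by ring
      rw [h4, le_div_iff₀ hβ, hD]
      have h5 : δ * (C0 * n) ≤ 1 * (C0 * n) := mul_le_mul_of_nonneg_right hδ4 hA0
      have h6 : δ * (C0 * n) * β ≤ δ * (C0 * n) := by
        have : 0 ≤ δ * (C0 * n) := by positivity
        nlinarith
      linarith
    have h4 : c3 * m0 = 32 * C0 / β * (2 * m0) := by
      rw [hc3]
      ring
    have h5 : 32 * C0 / β * n ≤ 32 * C0 / β * (2 * m0) :=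
      mul_le_mul_of_nonneg_left hn2 (by positivity)
    have h6 : 32 * C0 / β * n = 16 * C0 / β * n + 16 * C0 / β * n := by ring
    rw [h4]
    linarith
  obtain ⟨Z, m, hm, hmp, z1, z2, z3, z4, z5, z6, z7⟩ := core P V g' ξ β γ κ L m0 c1 c2 c3 e0 hPART
    hβ hγ hγ1 hκ hL0 hc1p hc2p hc3p he0p hP hξ hm0 hm0e hgain hnuG hnuM hDG hκ2 hcard
  refine ⟨g', Z, m, hm, hmp, z1, z2, z3, z4.trans ?_, z5.trans ?_, z6.trans (le_of_eq ?_),
    z7.trans (le_of_eq ?_)⟩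
  · apply mul_le_mul_of_nonneg_right _ hmp.le
    refine le_trans ?_ (le_max_right _ _)
    exact mul_le_mul_of_nonneg_left (by linarith) (by positivity)
  · apply mul_le_mul_of_nonneg_right _ hmp.le
    apply div_le_div_of_nonneg_right _ hL0.le
    refine le_trans ?_ (le_max_right _ _)
    exact mul_le_mul_of_nonneg_left (by linarith) (by positivity)
  · rw [he0]
    field_simp
  · rw [hc3]
    field_simp
    ring

end

end Pool.Agent.Helper37.ZS2
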